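import Pool.Agent.helper58.L9.Engine

/-!
# From the components of the core to a prelabelled set `J`

Abstract form: `Q` a symmetric relation, `k v` the cost of `v`. A finite set `K` inside `W` is
*stuck* if every `v ∈ K` has `5 ≤ #{u ∈ K, Q u v} + k v`. If every component `H` of the largest
stuck set has an independent `J ⊆ H` such that `H \ J` peels with the costs
`k v + [v has a Q-neighbour in J]`, then there is one `J` for the whole of `W`, in the form used by
`Pool.Agent.helper58.L9.engineW`.
-/

set_option autoImplicit false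

namespace Helper17.L21

open Finset
open scoped Classical

variable {V : Type*}

/-- every `v ∈ K` has `5 ≤ #{u ∈ K, Q u v} + k v` -/
def Stuck (Q : V → V → Prop) (k : V → ℕ) (K : Finset V) : Prop :=
  ∀ v ∈ K, 5 ≤ (K.filter fun u => Q u v).card + k v

/-- connected by `Q`-steps inside `K` -/
def Conn (Q : V → V → Prop) (K : Finset V) : Prop :=
  ∀ a ∈ K, ∀ b ∈ K, Relation.ReflTransGen (fun x y => x ∈ K ∧ y ∈ K ∧ Q x y) a b

/-- `J ⊆ H` is independent and `H \ J` peels -/
def Solves (Q : V → V → Prop) (k : V → ℕ) (H J : Finset V) : Prop :=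
  J ⊆ H ∧ (∀ u ∈ J, ∀ v ∈ J, ¬ Q u v) ∧
    ∀ S ⊆ H \ J, S.Nonempty → ∃ v ∈ S,
      (S.filter fun u => Q u v).card + k v + (if ∃ w ∈ J, Q w v then 1 else 0) ≤ 4

/-- `H` is a component of the largest stuck set inside `W` -/
structure IsComp (Q : V → V → Prop) (k : V → ℕ) (W : V → Prop) (H : Finset V) : Prop where
  ne : H.Nonempty
  inW : ∀ v ∈ H, W v
  stuck : Stuck Q k H
  conn : Conn Q H
  max : ∀ K : Finset V, (∀ v ∈ K, W v) → Stuck Q k K → Conn Q K → (∃ a ∈ K, a ∈ H) → K ⊆ H
  out : ∀ K : Finset V, (∀ v ∈ K, W v) → Stuck Q k K → ∀ a ∈ K, ∀ b ∈ H, Q a b → a ∈ H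

variable [Fintype V]

/-- the largest stuck set inside `W` -/
noncomputable def core (Q : V → V → Prop) (k : V → ℕ) (W : V → Prop) : Finset V :=
  univ.filter fun v => ∃ K : Finset V, (∀ v ∈ K, W v) ∧ Stuck Q k K ∧ v ∈ K

variable (Q : V → V → Prop) (k : V → ℕ) (W : V → Prop)

theorem subset_core {K : Finset V} (hW : ∀ v ∈ K, W v) (hK : Stuck Q k K) :
    K ⊆ core Q k W := by
  intro w hw
  rw [core, mem_filter]
  exact ⟨mem_univ _, K, hW, hK, hw⟩

theorem core_W {v : V} (hv : v ∈ core Q k W) : W v := by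
  rw [core, mem_filter] at hv
  obtain ⟨_, K, hW, _, hvK⟩ := hv
  exact hW v hvK

theorem stuck_core : Stuck Q k (core Q k W) := by
  intro v hv
  rw [core, mem_filter] at hv
  obtain ⟨_, K, hW, hK, hvK⟩ := hv
  exact (hK v hvK).trans (Nat.add_le_add_right
    (card_le_card (filter_subset_filter _ (subset_core Q k W hW hK))) _)

/-- a step inside the core -/
def CStep (x y : V) : Prop := x ∈ core Q k W ∧ y ∈ core Q k W ∧ Q x y

/-- the component of `v` in the core -/
noncomputable def comp (v : V) : Finset V :=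
  (core Q k W).filter fun w => Relation.ReflTransGen (CStep Q k W) v w

variable (hs : ∀ u v, Q u v → Q v u)
include hs

theorem rtg_symm {x y : V}
    (h : Relation.ReflTransGen (CStep Q k W) x y) : Relation.ReflTransGen (CStep Q k W) y x := by
  induction h with
  | refl => exact Relation.ReflTransGen.refl
  | tail _ h2 ih =>
    exact (Relation.ReflTransGen.single ⟨h2.2.1, h2.1, hs _ _ h2.2.2⟩).trans ih

theorem comp_eq {v w : V}
    (h : Relation.ReflTransGen (CStep Q k W) v w) : comp Q k W v = comp Q k W w := by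
  ext x
  simp only [comp, mem_filter]
  constructor
  · rintro ⟨h1, h2⟩; exact ⟨h1, (rtg_symm Q k W hs h).trans h2⟩
  · rintro ⟨h1, h2⟩; exact ⟨h1, h.trans h2⟩

omit hs in
theorem mem_comp_self {v : V} (h : v ∈ core Q k W) : v ∈ comp Q k W v := by
  rw [comp, mem_filter]
  exact ⟨h, Relation.ReflTransGen.refl⟩

omit hs in
theorem comp_core {v x : V} (hx : x ∈ comp Q k W v) : x ∈ core Q k W := by
  rw [comp, mem_filter] at hx
  exact hx.1

/-- core neighbours of a member of a component are in the component -/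
theorem comp_closed {v x y : V} (hx : x ∈ comp Q k W v)
    (hy : y ∈ core Q k W) (hxy : Q y x) : y ∈ comp Q k W v := by
  rw [comp, mem_filter] at hx ⊢
  exact ⟨hy, hx.2.tail ⟨hx.1, hy, hs _ _ hxy⟩⟩

theorem comp_isComp {v : V} (hv : v ∈ core Q k W) : IsComp Q k W (comp Q k W v) := by
  refine ⟨⟨v, mem_comp_self Q k W hv⟩, fun x hx => core_W Q k W (comp_core Q k W hx), ?_, ?_,
    ?_, ?_⟩
  · intro x hx
    refine (stuck_core Q k W x (comp_core Q k W hx)).trans (Nat.add_le_add_right (card_le_card ?_) _)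
    intro y hy
    rw [mem_filter] at hy ⊢
    exact ⟨comp_closed Q k W hs hx hy.1 hy.2, hy.2⟩
  · intro a ha b hb
    have ha' := ha
    have hb' := hb
    rw [comp, mem_filter] at ha' hb'
    have key : ∀ y, Relation.ReflTransGen (CStep Q k W) a y → Relation.ReflTransGen
        (fun x y => x ∈ comp Q k W v ∧ y ∈ comp Q k W v ∧ Q x y) a y := by
      intro y hy
      induction hy with
      | refl => exact Relation.ReflTransGen.refl
      | tail h1 h2 ih =>
        refine ih.tail ⟨?_, ?_, h2.2.2⟩
        · rw [comp, mem_filter]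
          exact ⟨h2.1, ha'.2.trans h1⟩
        · rw [comp, mem_filter]
          exact ⟨h2.2.1, ha'.2.trans (h1.tail h2)⟩
    exact key b ((rtg_symm Q k W hs ha'.2).trans hb'.2)
  · rintro K hKW hK hc ⟨a, ha, hav⟩ b hb
    have hsub := subset_core Q k W hKW hK
    have h1 := hc a ha b hb
    have h2 : Relation.ReflTransGen (CStep Q k W) a b :=
      Relation.ReflTransGen.mono (fun x y h => ⟨hsub h.1, hsub h.2.1, h.2.2⟩) a b h1
    rw [comp, mem_filter] at hav ⊢
    exact ⟨hsub hb, hav.2.trans h2⟩
  · intro K hKW hK a ha b hb hab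
    exact comp_closed Q k W hs hb (subset_core Q k W hKW hK ha) hab

/-- **Assembly.** -/
theorem exists_J (hcomp : ∀ H : Finset V, IsComp Q k W H → ∃ J, Solves Q k H J) :
    ∃ J : V → Prop, (∀ v, J v → W v) ∧ (∀ u v, J u → J v → ¬ Q u v) ∧
      ∀ S : Finset V, S.Nonempty → (∀ v ∈ S, ¬ J v) → (∀ v ∈ S, W v) →
        ∃ v ∈ S, (S.filter fun u => Q u v).card + k v + (if ∃ w, J w ∧ Q w v then 1 else 0) ≤ 4 := by
  have hJex : ∀ H : Finset V, ∃ J, IsComp Q k W H → Solves Q k H J := by
    intro H
    by_cases h : IsComp Q k W H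
    · obtain ⟨J, hJ⟩ := hcomp H h
      exact ⟨J, fun _ => hJ⟩
    · exact ⟨∅, fun h' => absurd h' h⟩
  choose JF hJF using hJex
  have hsol : ∀ v ∈ core Q k W, Solves Q k (comp Q k W v) (JF (comp Q k W v)) :=
    fun v hv => hJF _ (comp_isComp Q k W hs hv)
  set J : V → Prop := fun v => v ∈ core Q k W ∧ v ∈ JF (comp Q k W v) with hJdef
  have hJmem : ∀ v x, x ∈ comp Q k W v → (J x ↔ x ∈ JF (comp Q k W v)) := by
    intro v x hx
    have hx' := hx
    rw [comp, mem_filter] at hx'
    rw [hJdef]
    simp only [← comp_eq Q k W hs hx'.2]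
    exact ⟨fun h => h.2, fun h => ⟨hx'.1, h⟩⟩
  refine ⟨J, fun v hv => core_W Q k W hv.1, ?_, ?_⟩
  · intro u v hu hv hc
    have hvu : v ∈ comp Q k W u :=
      comp_closed Q k W hs (mem_comp_self Q k W hu.1) hv.1 (hs _ _ hc)
    exact (hsol u hu.1).2.1 u ((hJmem u u (mem_comp_self Q k W hu.1)).1 hu) v
      ((hJmem u v hvu).1 hv) hc
  · intro S hne hSJ hSW
    by_cases hSC : S ⊆ core Q k W
    · obtain ⟨v0, hv0⟩ := hne
      have hv0c := hSC hv0
      obtain ⟨_, _, h3⟩ := hsol v0 hv0c
      set H := comp Q k W v0 with hH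
      obtain ⟨v, hv, h4⟩ := h3 (S.filter (fun x => x ∈ H))
        (by
          intro x hx
          rw [mem_filter] at hx
          rw [mem_sdiff]
          exact ⟨hx.2, fun h => hSJ x hx.1 ((hJmem v0 x hx.2).2 h)⟩)
        ⟨v0, mem_filter.2 ⟨hv0, mem_comp_self Q k W hv0c⟩⟩
      rw [mem_filter] at hv
      refine ⟨v, hv.1, ?_⟩
      have e2 : (S.filter fun u => Q u v).card ≤
          ((S.filter (fun x => x ∈ H)).filter fun u => Q u v).card := by
        apply card_le_card
        intro w hw
        rw [mem_filter] at hw ⊢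
        rw [mem_filter]
        exact ⟨⟨hw.1, comp_closed Q k W hs hv.2 (hSC hw.1) hw.2⟩, hw.2⟩
      by_cases ha : ∃ w, J w ∧ Q w v
      · rw [if_pos ha]
        obtain ⟨w, hw, hwc⟩ := ha
        have hwH : w ∈ H := comp_closed Q k W hs hv.2 hw.1 hwc
        rw [if_pos ⟨w, (hJmem v0 w hwH).1 hw, hwc⟩] at h4
        omega
      · rw [if_neg ha]
        omega
    · -- a vertex outside the core
      obtain ⟨u, hu, huc⟩ := not_subset.1 hSC
      have hns : ¬ Stuck Q k (S ∪ core Q k W) := by
        intro h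
        refine huc (subset_core Q k W ?_ h (mem_union_left _ hu))
        intro v hv
        rcases mem_union.1 hv with hv | hv
        · exact hSW v hv
        · exact core_W Q k W hv
      rw [Stuck] at hns
      push Not at hns
      obtain ⟨v, hv, hlt⟩ := hns
      have hvc : v ∉ core Q k W := by
        intro h
        have h1 := stuck_core Q k W v h
        have h2 : ((core Q k W).filter fun u => Q u v).card ≤
            ((S ∪ core Q k W).filter fun u => Q u v).card :=
          card_le_card (filter_subset_filter _ subset_union_right)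
        omega
      have hvS : v ∈ S := by
        rcases mem_union.1 hv with h | h
        · exact h
        · exact absurd h hvc
      refine ⟨v, hvS, ?_⟩
      have e2 : (S.filter fun u => Q u v).card ≤
          ((S ∪ core Q k W).filter fun u => Q u v).card :=
        card_le_card (filter_subset_filter _ subset_union_left)
      by_cases ha : ∃ w, J w ∧ Q w v
      · rw [if_pos ha]
        obtain ⟨w, hw, hwc⟩ := ha
        have e1 : (S.filter fun u => Q u v).card <
            ((S ∪ core Q k W).filter fun u => Q u v).card := by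
          apply card_lt_card
          rw [ssubset_iff_of_subset (filter_subset_filter _ subset_union_left)]
          refine ⟨w, mem_filter.2 ⟨mem_union_right _ hw.1, hwc⟩, ?_⟩
          rw [mem_filter]
          exact fun h => hSJ w h.1 hw
        omega
      · rw [if_neg ha]
        omega

omit hs in
/-- The components of the core solve the labelling problem, with left out vertices. -/
theorem labelling_of_componentsW (G : SimpleGraph V) (X W : V → Prop)
    (hcomp : ∀ H : Finset V,
      IsComp (Pool.Agent.helper58.L9.Q G X) (Pool.Agent.helper58.L9.kkW G X W) W H →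
      ∃ J, Solves (Pool.Agent.helper58.L9.Q G X) (Pool.Agent.helper58.L9.kkW G X W) H J) :
    ∃ f : V → ℕ, (∀ v, W v → f v ≤ 9) ∧ (∀ v, W v → (X v ↔ Even (f v))) ∧
      (∀ u v, W u → W v → G.Adj u v → 2 ≤ |(f u : ℤ) - (f v : ℤ)|) ∧
      (∀ u v w, W u → W v → u ≠ v → G.Adj u w → G.Adj w v → f u ≠ f v) := by
  obtain ⟨J, _, h2, h3⟩ := exists_J (Pool.Agent.helper58.L9.Q G X)
    (Pool.Agent.helper58.L9.kkW G X W) W (fun _ _ h => Pool.Agent.helper58.L9.Q_symm h) hcomp
  exact Pool.Agent.helper58.L9.engineW G X J W h2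
    (fun S hS hJ hW _ => h3 S hS hJ hW)

omit hs in
/-- The components of the core solve the labelling problem. -/
theorem labelling_of_components (G : SimpleGraph V) (X : V → Prop)
    (hcomp : ∀ H : Finset V,
      IsComp (Pool.Agent.helper58.L9.Q G X) (Pool.Agent.helper58.L9.kk G X) (fun _ => True) H →
      ∃ J, Solves (Pool.Agent.helper58.L9.Q G X) (Pool.Agent.helper58.L9.kk G X) H J) :
    ∃ f : V → ℕ, (∀ v, f v ≤ 9) ∧
      (∀ u v, G.Adj u v → 2 ≤ |(f u : ℤ) - (f v : ℤ)|) ∧
      (∀ u v w, u ≠ v → G.Adj u w → G.Adj w v → f u ≠ f v) := by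
  obtain ⟨J, _, h2, h3⟩ := exists_J (Pool.Agent.helper58.L9.Q G X)
    (Pool.Agent.helper58.L9.kk G X) (fun _ => True)
    (fun _ _ h => Pool.Agent.helper58.L9.Q_symm h) hcomp
  exact Pool.Agent.helper58.L9.engine G X J h2
    (fun S hS hJ _ => h3 S hS hJ (fun _ _ => trivial))

end Helper17.L21
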