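import Mathlib.Data.List.Basic
import Mathlib.Data.Nat.Basic
import Mathlib.Algebra.Ring.Parity
import Mathlib.Tactic.IntervalCases
import Mathlib.Tactic.Linarith

/-!
# Two five-cycles labelled last, in parity: the finite lemmas

`loop_core`: the loop type `v2, v3, t, y2, y3`.  `b6_core`: the type `x2, x3, x4, x5, y`.
Even labels belong to the first side, odd labels to the other one.
-/

set_option autoImplicit false

namespace Helper17.L21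

/-- all three-element subsets of `{0,1,2,3,4}` -/
def tri : List (List ℕ) :=
  [[0, 1, 2], [0, 1, 3], [0, 1, 4], [0, 2, 3], [0, 2, 4], [0, 3, 4], [1, 2, 3], [1, 2, 4],
    [1, 3, 4], [2, 3, 4]]

def five : List ℕ := [0, 1, 2, 3, 4]

def bne' (a b : ℕ) : Bool := !(Nat.beq a b)

/-- the even label `2 i` and the odd label `2 j + 1` do not differ by one -/
def okc (i j : ℕ) : Bool := !(Nat.beq i j) && !(Nat.beq i (j + 1))

theorem bne'_iff {a b : ℕ} : bne' a b = true ↔ a ≠ b := by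
  unfold bne'
  rw [Bool.not_eq_true', ← Bool.not_eq_true, Nat.beq_eq]

theorem okc_iff {i j : ℕ} : okc i j = true ↔ i ≠ j ∧ i ≠ j + 1 := by
  unfold okc
  rw [Bool.and_eq_true, Bool.not_eq_true', Bool.not_eq_true', ← Bool.not_eq_true,
    ← Bool.not_eq_true, Nat.beq_eq, Nat.beq_eq]

def loopS (S : List ℕ) (c : ℕ) (T U : List ℕ) : Bool :=
  S.any fun a => S.any fun b => bne' a b && five.any fun t =>
    bne' t c && bne' t a && bne' t b &&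
    T.any fun y => okc a y && okc t y && U.any fun z => bne' y z && okc b z && okc t z

def loopAll : Bool := tri.all fun S => tri.all fun T => tri.all fun U => five.all fun c =>
  loopS S c T U

set_option maxRecDepth 100000 in
theorem loopAll_true : loopAll = true := by decide +kernel

def b6S (p q z w : ℕ) (U : List ℕ) : Bool :=
  five.any fun x => bne' x p && five.any fun u => bne' u q && bne' x u &&
    five.any fun a => bne' a p && bne' a x && bne' a u && okc a z &&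
    five.any fun b => bne' b q && bne' b a && bne' b x && bne' b u && okc b w &&
    U.any fun y => okc x y && okc u y

def b6All : Bool := five.all fun p => five.all fun q => five.all fun z => five.all fun w =>
  tri.all fun U => (Nat.beq z w && !(Nat.beq z 0) && !(Nat.beq z 4)) || b6S p q z w U

set_option maxRecDepth 100000 in
theorem b6All_true : b6All = true := by decide +kernel

theorem mem_five {n : ℕ} : n ∈ five ↔ n ≤ 4 := by
  unfold five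
  simp only [List.mem_cons, List.not_mem_nil, or_false]
  omega

/-- a three-element subset avoiding two numbers -/
theorem tri_avoid (a b : ℕ) : ∃ S ∈ tri, ∀ i ∈ S, i ≤ 4 ∧ i ≠ a ∧ i ≠ b := by
  have key : ∀ a ∈ [0, 1, 2, 3, 4, 5], ∀ b ∈ [0, 1, 2, 3, 4, 5],
      ∃ S ∈ tri, ∀ i ∈ S, i ≤ 4 ∧ i ≠ a ∧ i ≠ b := by decide +kernel
  have hm : ∀ n : ℕ, ∃ m ∈ [0, 1, 2, 3, 4, 5], ∀ i : ℕ, i ≤ 4 → i ≠ m → i ≠ n := by
    intro n
    by_cases h : n ≤ 4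
    · refine ⟨n, ?_, fun i _ h => h⟩
      simp only [List.mem_cons, List.not_mem_nil, or_false]
      omega
    · refine ⟨5, by decide, fun i hi _ => by omega⟩
  obtain ⟨a', ha', ha⟩ := hm a
  obtain ⟨b', hb', hb⟩ := hm b
  obtain ⟨S, hS, h⟩ := key a' ha' b' hb'
  exact ⟨S, hS, fun i hi => ⟨(h i hi).1, ha i (h i hi).1 (h i hi).2.1,
    hb i (h i hi).1 (h i hi).2.2⟩⟩

/-- a number in `five` which may replace `n` -/
theorem five_repl (n : ℕ) : ∃ m ∈ five, ∀ i : ℕ, i ≤ 4 → i ≠ m → i ≠ n := by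
  by_cases h : n ≤ 4
  · exact ⟨n, mem_five.mpr h, fun i _ h => h⟩
  · exact ⟨0, by decide, fun i hi _ => by omega⟩

theorem even_ne {i n : ℕ} (h : i ≠ n / 2) : 2 * i ≠ n := by omega

theorem odd_ne {j n : ℕ} (h : j ≠ n / 2) : 2 * j + 1 ≠ n := by omega

theorem le_even {i : ℕ} (h : i ≤ 4) : Even (2 * i) ∧ 2 * i ≤ 9 := ⟨even_two_mul i, by omega⟩

theorem le_odd {i : ℕ} (h : i ≤ 4) : Odd (2 * i + 1) ∧ 2 * i + 1 ≤ 9 :=
  ⟨odd_two_mul_add_one i, by omega⟩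

theorem dbl_ne {i j : ℕ} (h : i ≠ j) : 2 * i ≠ 2 * j := by omega

theorem dbl_ne' {i j : ℕ} (h : i ≠ j) : 2 * i + 1 ≠ 2 * j + 1 := by omega

theorem cross_ok {i j : ℕ} (h : i ≠ j ∧ i ≠ j + 1) :
    2 * i + 1 ≠ 2 * j + 1 ∧ 2 * j + 1 + 1 ≠ 2 * i := by omega

/-- **The loop type.** -/
theorem loop_core (a b c d e d' e' : ℕ) :
    ∃ v w t y z : ℕ, (Even v ∧ v ≤ 9) ∧ (Even w ∧ w ≤ 9) ∧ (Even t ∧ t ≤ 9) ∧
      (Odd y ∧ y ≤ 9) ∧ (Odd z ∧ z ≤ 9) ∧ (v ≠ a ∧ v ≠ b) ∧ (w ≠ a ∧ w ≠ b) ∧ t ≠ c ∧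
      (y ≠ d ∧ y ≠ e) ∧ (z ≠ d' ∧ z ≠ e') ∧ v ≠ w ∧ t ≠ v ∧ t ≠ w ∧ y ≠ z ∧
      (v + 1 ≠ y ∧ y + 1 ≠ v) ∧ (t + 1 ≠ y ∧ y + 1 ≠ t) ∧ (w + 1 ≠ z ∧ z + 1 ≠ w) ∧
      (t + 1 ≠ z ∧ z + 1 ≠ t) := by
  obtain ⟨S, hS, hSa⟩ := tri_avoid (a / 2) (b / 2)
  obtain ⟨T, hT, hTa⟩ := tri_avoid (d / 2) (e / 2)
  obtain ⟨U, hU, hUa⟩ := tri_avoid (d' / 2) (e' / 2)
  obtain ⟨m, hm, hma⟩ := five_repl (c / 2)
  have h := loopAll_true
  unfold loopAll at h
  rw [List.all_eq_true] at h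
  have h1 := h S hS
  rw [List.all_eq_true] at h1
  have h2 := h1 T hT
  rw [List.all_eq_true] at h2
  have h3 := h2 U hU
  rw [List.all_eq_true] at h3
  have h4 := h3 m hm
  unfold loopS at h4
  simp only [List.any_eq_true, Bool.and_eq_true, bne'_iff, okc_iff] at h4
  obtain ⟨v, hv, w, hw, hvw, t, ht, ⟨⟨htm, htv⟩, htw⟩, y, hy, ⟨hvy, hty⟩, z, hz, ⟨⟨hyz, hwz⟩,
    htz⟩⟩ := h4
  have v1 := hSa v hv
  have w1 := hSa w hw
  have t1 := mem_five.mp ht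
  have y1 := hTa y hy
  have z1 := hUa z hz
  have t2 := hma t t1 htm
  clear h h1 h2 h3 hS hT hU hm hv hw ht hy hz hSa hTa hUa hma
  exact ⟨2 * v, 2 * w, 2 * t, 2 * y + 1, 2 * z + 1, le_even v1.1, le_even w1.1, le_even t1,
    le_odd y1.1, le_odd z1.1, ⟨even_ne v1.2.1, even_ne v1.2.2⟩,
    ⟨even_ne w1.2.1, even_ne w1.2.2⟩, even_ne t2, ⟨odd_ne y1.2.1, odd_ne y1.2.2⟩,
    ⟨odd_ne z1.2.1, odd_ne z1.2.2⟩, dbl_ne hvw, dbl_ne htv, dbl_ne htw, dbl_ne' hyz,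
    cross_ok hvy, cross_ok hty, cross_ok hwz, cross_ok htz⟩

/-- **The type `B6`.** -/
theorem b6_core (p q z w d e : ℕ) (hz : Odd z) (hz9 : z ≤ 9) (hw : Odd w) (hw9 : w ≤ 9)
    (hzw : z ≠ w ∨ w = 1 ∨ w = 9) :
    ∃ x u a b y : ℕ, (Even x ∧ x ≤ 9) ∧ (Even u ∧ u ≤ 9) ∧ (Even a ∧ a ≤ 9) ∧
      (Even b ∧ b ≤ 9) ∧ (Odd y ∧ y ≤ 9) ∧ x ≠ p ∧ u ≠ q ∧ a ≠ p ∧ b ≠ q ∧
      (a + 1 ≠ z ∧ z + 1 ≠ a) ∧ (b + 1 ≠ w ∧ w + 1 ≠ b) ∧ (y ≠ d ∧ y ≠ e) ∧
      x ≠ u ∧ x ≠ a ∧ x ≠ b ∧ u ≠ a ∧ u ≠ b ∧ a ≠ b ∧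
      (x + 1 ≠ y ∧ y + 1 ≠ x) ∧ (u + 1 ≠ y ∧ y + 1 ≠ u) := by
  obtain ⟨z', rfl⟩ := hz
  obtain ⟨w', rfl⟩ := hw
  obtain ⟨p', hp, hpa⟩ := five_repl (p / 2)
  obtain ⟨q', hq, hqa⟩ := five_repl (q / 2)
  obtain ⟨U, hU, hUa⟩ := tri_avoid (d / 2) (e / 2)
  have h := b6All_true
  unfold b6All at h
  rw [List.all_eq_true] at h
  have h1 := h p' hp
  rw [List.all_eq_true] at h1
  have h2 := h1 q' hq
  rw [List.all_eq_true] at h2
  have h3 := h2 z' (mem_five.mpr (by omega))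
  rw [List.all_eq_true] at h3
  have h4 := h3 w' (mem_five.mpr (by omega))
  rw [List.all_eq_true] at h4
  have h5 := h4 U hU
  rw [Bool.or_eq_true] at h5
  rcases h5 with h5 | h5
  · exfalso
    simp only [Bool.and_eq_true, Nat.beq_eq, Bool.not_eq_true'] at h5
    obtain ⟨⟨h5, h6⟩, h7⟩ := h5
    rw [← Bool.not_eq_true, Nat.beq_eq] at h6 h7
    omega
  · unfold b6S at h5
    simp only [List.any_eq_true, Bool.and_eq_true, bne'_iff, okc_iff] at h5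
    obtain ⟨x, hx, hxp, u, hu, ⟨huq, hxu⟩, a, ha, ⟨⟨⟨hap, hax⟩, hau⟩, haz⟩, b, hb,
      ⟨⟨⟨⟨hbq, hba⟩, hbx⟩, hbu⟩, hbw⟩, y, hy, hxy, huy⟩ := h5
    have x1 := mem_five.mp hx
    have u1 := mem_five.mp hu
    have a1 := mem_five.mp ha
    have b1 := mem_five.mp hb
    have y1 := hUa y hy
    have x2 := hpa x x1 hxp
    have a2 := hpa a a1 hap
    have u2 := hqa u u1 huq
    have b2 := hqa b b1 hbq
    clear h h1 h2 h3 h4 hp hq hU hpa hqa hUa hx hu ha hb hy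
    exact ⟨2 * x, 2 * u, 2 * a, 2 * b, 2 * y + 1, le_even x1, le_even u1, le_even a1,
      le_even b1, le_odd y1.1, even_ne x2, even_ne u2, even_ne a2, even_ne b2,
      cross_ok haz, cross_ok hbw, ⟨odd_ne y1.2.1, odd_ne y1.2.2⟩, dbl_ne hxu,
      dbl_ne hax.symm, dbl_ne hbx.symm, dbl_ne hau.symm, dbl_ne hbu.symm, dbl_ne hba.symm,
      cross_ok hxy, cross_ok huy⟩

/-- an odd label blocking a given even label -/
theorem exists_blocker (e z : ℕ) : ∃ w, Odd w ∧ w ≤ 9 ∧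
    (∀ n, Even n → n ≤ 9 → n + 1 ≠ w → w + 1 ≠ n → n ≠ e) ∧ (z ≠ w ∨ w = 1 ∨ w = 9) := by
  by_cases h : Even e ∧ e ≤ 8
  · obtain ⟨⟨k, rfl⟩, hk⟩ := h
    by_cases h0 : k + k = 8
    · refine ⟨9, by decide, le_rfl, ?_, Or.inr (Or.inr rfl)⟩
      intro n _ _ h1 h2
      omega
    · by_cases h1 : k + k + 1 = z
      · by_cases h2 : k = 0
        · refine ⟨1, by decide, by omega, ?_, Or.inr (Or.inl rfl)⟩
          intro n _ _ h1 h2
          omega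
        · refine ⟨k + k - 1, ?_, by omega, ?_, Or.inl (by omega)⟩
          · rw [Nat.odd_iff]
            omega
          · intro n _ _ h1 h2
            omega
      · refine ⟨k + k + 1, ?_, by omega, ?_, Or.inl (by omega)⟩
        · rw [Nat.odd_iff]
          omega
        · intro n _ _ h1 h2
          omega
  · refine ⟨1, by decide, by omega, ?_, Or.inr (Or.inl rfl)⟩
    rintro n h1 h2 _ _ rfl
    apply h
    refine ⟨h1, ?_⟩
    rcases h1 with ⟨k, hk⟩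
    omega

end Helper17.L21
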