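import Pool.Agent.helper40.L9.ParLast
import Pool.Agent.helper17.L21.Fin5
import Mathlib.Data.Fin.VecNotation
import Mathlib.Tactic.FinCases

/-!
# Two types of five-cycles labelled last, in parity (instances of `ext_list`)

`Loop`: `v2 v3` adjacent, `v2 y2`, `v3 y3`, `t y2`, `t y3` cross edges.
`BSix`: the path `x2 x3 x4 x5`, the cross edges `x2 y`, `x5 y`; `z3`, `z4` the outer cross
neighbours of `x3`, `x4`.
-/

set_option autoImplicit false

namespace Helper17.L21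

open Finset
open scoped Classical
open Pool.Agent.helper40.L9

variable {V : Type*}

/-- the loop type; `S` is the set `{v2, v3, t, y2, y3}` -/
structure Loop (A Q : V → V → Prop) (X : V → Prop) (S : V → Prop) (v2 v3 t y2 y3 : V) :
    Prop where
  mem : ∀ v, S v ↔ v = v2 ∨ v = v3 ∨ v = t ∨ v = y2 ∨ v = y3
  ne23 : v2 ≠ v3
  ne2t : v2 ≠ t
  ne3t : v3 ≠ t
  ney : y2 ≠ y3
  s3 : X v3 ↔ X v2
  st : X t ↔ X v2
  sy2 : ¬ (X y2 ↔ X v2)
  sy3 : ¬ (X y3 ↔ X v2)
  c2 : ∀ w, A v2 w → ¬ (X v2 ↔ X w) → w = y2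
  c3 : ∀ w, A v3 w → ¬ (X v3 ↔ X w) → w = y3
  ct : ∀ w, A t w → ¬ (X t ↔ X w) → w = y2 ∨ w = y3
  cy2 : ∀ w, A y2 w → ¬ (X y2 ↔ X w) → w = v2 ∨ w = t
  cy3 : ∀ w, A y3 w → ¬ (X y3 ↔ X w) → w = v3 ∨ w = t
  q2 : ∃ a b, (∀ u, Q v2 u → ¬ S u → u = a ∨ u = b) ∧ (∀ u, Q v3 u → ¬ S u → u = a ∨ u = b)
  qt : ∃ a, ∀ u, Q t u → ¬ S u → u = a
  qy2 : ∃ a b, ∀ u, Q y2 u → ¬ S u → u = a ∨ u = b
  qy3 : ∃ a b, ∀ u, Q y3 u → ¬ S u → u = a ∨ u = b

/-- the type `B6`; `S` is the set `{x2, x5, x3, x4, y}` -/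
structure BSix (A Q : V → V → Prop) (X : V → Prop) (S : V → Prop) (x2 x5 x3 x4 y z3 z4 : V) :
    Prop where
  mem : ∀ v, S v ↔ v = x2 ∨ v = x5 ∨ v = x3 ∨ v = x4 ∨ v = y
  ne25 : x2 ≠ x5
  ne23 : x2 ≠ x3
  ne24 : x2 ≠ x4
  ne53 : x5 ≠ x3
  ne54 : x5 ≠ x4
  ne34 : x3 ≠ x4
  s5 : X x5 ↔ X x2
  s3 : X x3 ↔ X x2
  s4 : X x4 ↔ X x2
  sy : ¬ (X y ↔ X x2)
  sz3 : ¬ (X z3 ↔ X x2)
  sz4 : ¬ (X z4 ↔ X x2)
  nz3 : ¬ S z3
  nz4 : ¬ S z4
  c2 : ∀ w, A x2 w → ¬ (X x2 ↔ X w) → w = y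
  c5 : ∀ w, A x5 w → ¬ (X x5 ↔ X w) → w = y
  c3 : ∀ w, A x3 w → ¬ (X x3 ↔ X w) → w = z3
  c4 : ∀ w, A x4 w → ¬ (X x4 ↔ X w) → w = z4
  cy : ∀ w, A y w → ¬ (X y ↔ X w) → w = x2 ∨ w = x5
  q23 : ∃ a, (∀ u, Q x2 u → ¬ S u → u = a) ∧ (∀ u, Q x3 u → ¬ S u → u = a)
  q54 : ∃ a, (∀ u, Q x5 u → ¬ S u → u = a) ∧ (∀ u, Q x4 u → ¬ S u → u = a)
  qy : ∃ a b, ∀ u, Q y u → ¬ S u → u = a ∨ u = b

theorem Loop.refl {A Q : V → V → Prop} {X S : V → Prop} {v2 v3 t y2 y3 : V}
    (h : Loop A Q X S v2 v3 t y2 y3) : Loop A Q (fun v => ¬ X v) S v2 v3 t y2 y3 where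
  mem := h.mem
  ne23 := h.ne23
  ne2t := h.ne2t
  ne3t := h.ne3t
  ney := h.ney
  s3 := not_congr h.s3
  st := not_congr h.st
  sy2 := by rw [not_iff_not]; exact h.sy2
  sy3 := by rw [not_iff_not]; exact h.sy3
  c2 := fun w hw hX => h.c2 w hw (by rwa [not_iff_not] at hX)
  c3 := fun w hw hX => h.c3 w hw (by rwa [not_iff_not] at hX)
  ct := fun w hw hX => h.ct w hw (by rwa [not_iff_not] at hX)
  cy2 := fun w hw hX => h.cy2 w hw (by rwa [not_iff_not] at hX)
  cy3 := fun w hw hX => h.cy3 w hw (by rwa [not_iff_not] at hX)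
  q2 := h.q2
  qt := h.qt
  qy2 := h.qy2
  qy3 := h.qy3

theorem BSix.refl {A Q : V → V → Prop} {X S : V → Prop} {x2 x5 x3 x4 y z3 z4 : V}
    (h : BSix A Q X S x2 x5 x3 x4 y z3 z4) :
    BSix A Q (fun v => ¬ X v) S x2 x5 x3 x4 y z3 z4 where
  mem := h.mem
  ne25 := h.ne25
  ne23 := h.ne23
  ne24 := h.ne24
  ne53 := h.ne53
  ne54 := h.ne54
  ne34 := h.ne34
  s5 := not_congr h.s5
  s3 := not_congr h.s3
  s4 := not_congr h.s4
  sy := by rw [not_iff_not]; exact h.sy
  sz3 := by rw [not_iff_not]; exact h.sz3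
  sz4 := by rw [not_iff_not]; exact h.sz4
  nz3 := h.nz3
  nz4 := h.nz4
  c2 := fun w hw hX => h.c2 w hw (by rwa [not_iff_not] at hX)
  c5 := fun w hw hX => h.c5 w hw (by rwa [not_iff_not] at hX)
  c3 := fun w hw hX => h.c3 w hw (by rwa [not_iff_not] at hX)
  c4 := fun w hw hX => h.c4 w hw (by rwa [not_iff_not] at hX)
  cy := fun w hw hX => h.cy w hw (by rwa [not_iff_not] at hX)
  q23 := h.q23
  q54 := h.q54
  qy := h.qy

section

variable {A Q : V → V → Prop} {X : V → Prop} {ι : Type*} {S : ι → V → Prop}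
  {R : ι → V → V → Prop}

theorem ext_loop_pos [Fintype V] (hAs : ∀ u v, A u v → A v u) (hQs : ∀ u v, Q u v → Q v u)
    (hQne : ∀ v, ¬ Q v v) (hRs : ∀ i u v, R i u v → R i v u) (hRne : ∀ i v, ¬ R i v v)
    (i : ι) (hdisj : ∀ j, j ≠ i → ∀ v, S i v → ¬ S j v) {v2 v3 t y2 y3 : V}
    (h : Loop A Q X (S i) v2 v3 t y2 y3) (hR : ∀ j, j ≠ i → ∀ u v, S i u → ¬ R j u v)
    (hX : X v2) : Ext A Q X S R i := by
  have X3 : X v3 := h.s3.mpr hX
  have Xt : X t := h.st.mpr hX
  have Xy2 : ¬ X y2 := fun hy => h.sy2 ⟨fun _ => hX, fun _ => hy⟩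
  have Xy3 : ¬ X y3 := fun hy => h.sy3 ⟨fun _ => hX, fun _ => hy⟩
  obtain ⟨a, b, q2, q3⟩ := h.q2
  obtain ⟨c, qt⟩ := h.qt
  obtain ⟨d, e, qy2⟩ := h.qy2
  obtain ⟨d', e', qy3⟩ := h.qy3
  have hsep : ∀ u v, X u → ¬ X v → u ≠ v := by
    rintro u v hu hv rfl
    exact hv hu
  have m2 : S i v2 := (h.mem _).mpr (Or.inl rfl)
  have m3 : S i v3 := (h.mem _).mpr (Or.inr (Or.inl rfl))
  have mt : S i t := (h.mem _).mpr (Or.inr (Or.inr (Or.inl rfl)))
  have my2 : S i y2 := (h.mem _).mpr (Or.inr (Or.inr (Or.inr (Or.inl rfl))))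
  have my3 : S i y3 := (h.mem _).mpr (Or.inr (Or.inr (Or.inr (Or.inr rfl))))
  refine ext_list hAs hQs hQne hRs hRne i hdisj ![v2, v3, t, y2, y3] ?_ ?_ ?_
  · have e1 := h.ne23
    have e2 := h.ne2t
    have e3 := h.ne3t
    have e4 := h.ney
    have e5 := hsep _ _ hX Xy2
    have e6 := hsep _ _ hX Xy3
    have e7 := hsep _ _ X3 Xy2
    have e8 := hsep _ _ X3 Xy3
    have e9 := hsep _ _ Xt Xy2
    have e10 := hsep _ _ Xt Xy3
    intro k l hkl
    fin_cases k <;> fin_cases l <;> first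
      | rfl
      | exact absurd hkl (by assumption)
      | exact absurd hkl.symm (by assumption)
  · intro v
    rw [h.mem]
    constructor
    · rintro (rfl | rfl | rfl | rfl | rfl)
      exacts [⟨0, rfl⟩, ⟨1, rfl⟩, ⟨2, rfl⟩, ⟨3, rfl⟩, ⟨4, rfl⟩]
    · rintro ⟨k, rfl⟩
      fin_cases k
      exacts [Or.inl rfl, Or.inr (Or.inl rfl), Or.inr (Or.inr (Or.inl rfl)),
        Or.inr (Or.inr (Or.inr (Or.inl rfl))), Or.inr (Or.inr (Or.inr (Or.inr rfl)))]
  · intro T f hiT _ _ _ _ _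
    obtain ⟨gv, gw, gt, gy, gz, ⟨v1, v9⟩, ⟨w1, w9⟩, ⟨t1, t9⟩, ⟨y1, y9⟩, ⟨z1, z9⟩, ⟨va, vb⟩,
      ⟨wa, wb⟩, tc, ⟨yd, ye⟩, ⟨zd, ze⟩, hvw, htv, htw, hyz, ⟨vy, yv⟩, ⟨ty, yt⟩, ⟨wz, zw⟩,
      ⟨tz, zt⟩⟩ := loop_core (f a) (f b) (f c) (f d) (f e) (f d') (f e')
    have hpar : ∀ m n : ℕ, Even m → Odd n → m ≠ n := by
      rintro m n hm hn rfl
      exact (Nat.not_even_iff_odd.mpr hn) hm
    refine ⟨![gv, gw, gt, gy, gz], ?_, ?_, ?_, ?_, ?_, ?_, ?_, ?_⟩
    · intro k
      fin_cases k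
      exacts [v9, w9, t9, y9, z9]
    · intro k
      fin_cases k
      · exact ⟨fun _ => v1, fun _ => hX⟩
      · exact ⟨fun _ => w1, fun _ => X3⟩
      · exact ⟨fun _ => t1, fun _ => Xt⟩
      · exact ⟨fun hx => absurd hx Xy2, fun hx => absurd hx (Nat.not_even_iff_odd.mpr y1)⟩
      · exact ⟨fun hx => absurd hx Xy3, fun hx => absurd hx (Nat.not_even_iff_odd.mpr z1)⟩
    · intro k u hu hq
      fin_cases k
      · rcases q2 u hq hu with rfl | rfl
        exacts [va, vb]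
      · rcases q3 u hq hu with rfl | rfl
        exacts [wa, wb]
      · have := qt u hq hu
        subst this
        exact tc
      · rcases qy2 u hq hu with rfl | rfl
        exacts [yd, ye]
      · rcases qy3 u hq hu with rfl | rfl
        exacts [zd, ze]
    · intro j _ hji k u _ hr
      exfalso
      fin_cases k
      exacts [hR j hji _ _ m2 hr, hR j hji _ _ m3 hr, hR j hji _ _ mt hr, hR j hji _ _ my2 hr,
        hR j hji _ _ my3 hr]
    · intro k w hw ha hx
      exfalso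
      fin_cases k
      · exact hw ((h.c2 w ha hx) ▸ my2)
      · exact hw ((h.c3 w ha hx) ▸ my3)
      · rcases h.ct w ha hx with rfl | rfl
        exacts [hw my2, hw my3]
      · rcases h.cy2 w ha hx with rfl | rfl
        exacts [hw m2, hw mt]
      · rcases h.cy3 w ha hx with rfl | rfl
        exacts [hw m3, hw mt]
    · intro k l hq
      fin_cases k <;> fin_cases l <;> first
        | exact absurd hq (hQne _)
        | exact hvw
        | exact hvw.symm
        | exact htv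
        | exact htv.symm
        | exact htw
        | exact htw.symm
        | exact hyz
        | exact hyz.symm
        | exact hpar _ _ v1 y1
        | exact hpar _ _ v1 z1
        | exact hpar _ _ w1 y1
        | exact hpar _ _ w1 z1
        | exact hpar _ _ t1 y1
        | exact hpar _ _ t1 z1
        | exact (hpar _ _ v1 y1).symm
        | exact (hpar _ _ v1 z1).symm
        | exact (hpar _ _ w1 y1).symm
        | exact (hpar _ _ w1 z1).symm
        | exact (hpar _ _ t1 y1).symm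
        | exact (hpar _ _ t1 z1).symm
    · intro j _ hji k l hr
      exfalso
      fin_cases k
      exacts [hR j hji _ _ m2 hr, hR j hji _ _ m3 hr, hR j hji _ _ mt hr, hR j hji _ _ my2 hr,
        hR j hji _ _ my3 hr]
    · have n1 : ∀ w, A v2 w → ¬ X w → w = y2 := fun w ha hx => h.c2 w ha (by tauto)
      have n2 : ∀ w, A v3 w → ¬ X w → w = y3 := fun w ha hx => h.c3 w ha (by tauto)
      have n3 : ∀ w, A y2 w → X w → w = v2 ∨ w = t := fun w ha hx => h.cy2 w ha (by tauto)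
      have n4 : ∀ w, A y3 w → X w → w = v3 ∨ w = t := fun w ha hx => h.cy3 w ha (by tauto)
      have f1 : ¬ A v2 y3 := fun ha => h.ney (n1 _ ha Xy3).symm
      have f2 : ¬ A v3 y2 := fun ha => h.ney (n2 _ ha Xy2)
      have f3 : ¬ A y3 v2 := fun ha => f1 (hAs _ _ ha)
      have f4 : ¬ A y2 v3 := fun ha => f2 (hAs _ _ ha)
      intro k l ha hx
      fin_cases k <;> fin_cases l <;> first
        | exact absurd Iff.rfl hx
        | exact absurd ha f1
        | exact absurd ha f2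
        | exact absurd ha f3
        | exact absurd ha f4
        | exact vy
        | exact yv
        | exact ty
        | exact yt
        | exact wz
        | exact zw
        | exact tz
        | exact zt
        | exact absurd (iff_of_true X3 hX) hx
        | exact absurd (iff_of_true hX X3) hx
        | exact absurd (iff_of_true Xt hX) hx
        | exact absurd (iff_of_true hX Xt) hx
        | exact absurd (iff_of_true Xt X3) hx
        | exact absurd (iff_of_true X3 Xt) hx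
        | exact absurd (iff_of_false Xy2 Xy3) hx
        | exact absurd (iff_of_false Xy3 Xy2) hx

/-- **The loop type can be labelled last, in parity.** -/
theorem ext_loop [Fintype V] (hAs : ∀ u v, A u v → A v u) (hQs : ∀ u v, Q u v → Q v u)
    (hQne : ∀ v, ¬ Q v v) (hRs : ∀ i u v, R i u v → R i v u) (hRne : ∀ i v, ¬ R i v v)
    (i : ι) (hdisj : ∀ j, j ≠ i → ∀ v, S i v → ¬ S j v) {v2 v3 t y2 y3 : V}
    (h : Loop A Q X (S i) v2 v3 t y2 y3) (hR : ∀ j, j ≠ i → ∀ u v, S i u → ¬ R j u v) :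
    Ext A Q X S R i := by
  by_cases hX : X v2
  · exact ext_loop_pos hAs hQs hQne hRs hRne i hdisj h hR hX
  · exact Ext.refl hAs (ext_loop_pos hAs hQs hQne hRs hRne i hdisj h.refl hR hX)

set_option maxHeartbeats 2000000 in
theorem ext_b6_pos [Fintype V] (hAs : ∀ u v, A u v → A v u) (hQs : ∀ u v, Q u v → Q v u)
    (hQne : ∀ v, ¬ Q v v) (hRs : ∀ i u v, R i u v → R i v u) (hRne : ∀ i v, ¬ R i v v)
    (i : ι) (hdisj : ∀ j, j ≠ i → ∀ v, S i v → ¬ S j v) {x2 x5 x3 x4 y z3 z4 : V}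
    (h : BSix A Q X (S i) x2 x5 x3 x4 y z3 z4) (hRi : R i z3 z4)
    (hR : ∀ j, j ≠ i → ∀ u v, S i u → R j u v → u = x3 ∨ u = x4)
    (hR3 : ∃ r, ∀ j, j ≠ i → ∀ u, R j x3 u → S j z3 ∧ u = r)
    (hR4 : ∃ r, ∀ j, j ≠ i → ∀ u, R j x4 u → S j z4 ∧ u = r)
    (hX : X x2) : Ext A Q X S R i := by
  have X5 : X x5 := h.s5.mpr hX
  have X3 : X x3 := h.s3.mpr hX
  have X4 : X x4 := h.s4.mpr hX
  have Xy : ¬ X y := fun hy => h.sy ⟨fun _ => hX, fun _ => hy⟩
  have Xz3 : ¬ X z3 := fun hy => h.sz3 ⟨fun _ => hX, fun _ => hy⟩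
  have Xz4 : ¬ X z4 := fun hy => h.sz4 ⟨fun _ => hX, fun _ => hy⟩
  obtain ⟨a, q2, q3⟩ := h.q23
  obtain ⟨b, q5, q4⟩ := h.q54
  obtain ⟨d, e, qy⟩ := h.qy
  obtain ⟨r3, hr3⟩ := hR3
  obtain ⟨r4, hr4⟩ := hR4
  have hsep : ∀ u v, X u → ¬ X v → u ≠ v := by
    rintro u v hu hv rfl
    exact hv hu
  have m2 : S i x2 := (h.mem _).mpr (Or.inl rfl)
  have m5 : S i x5 := (h.mem _).mpr (Or.inr (Or.inl rfl))
  have m3 : S i x3 := (h.mem _).mpr (Or.inr (Or.inr (Or.inl rfl)))
  have m4 : S i x4 := (h.mem _).mpr (Or.inr (Or.inr (Or.inr (Or.inl rfl))))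
  have my : S i y := (h.mem _).mpr (Or.inr (Or.inr (Or.inr (Or.inr rfl))))
  have n25 := h.ne25
  have n23 := h.ne23
  have n24 := h.ne24
  have n53 := h.ne53
  have n54 := h.ne54
  have n34 := h.ne34
  have n2y := hsep _ _ hX Xy
  have n5y := hsep _ _ X5 Xy
  have n3y := hsep _ _ X3 Xy
  have n4y := hsep _ _ X4 Xy
  refine ext_list hAs hQs hQne hRs hRne i hdisj ![x2, x5, x3, x4, y] ?_ ?_ ?_
  · intro k l hkl
    fin_cases k <;> fin_cases l <;> first
      | rfl
      | exact absurd hkl (by assumption)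
      | exact absurd hkl.symm (by assumption)
  · intro v
    rw [h.mem]
    constructor
    · rintro (rfl | rfl | rfl | rfl | rfl)
      exacts [⟨0, rfl⟩, ⟨1, rfl⟩, ⟨2, rfl⟩, ⟨3, rfl⟩, ⟨4, rfl⟩]
    · rintro ⟨k, rfl⟩
      fin_cases k
      exacts [Or.inl rfl, Or.inr (Or.inl rfl), Or.inr (Or.inr (Or.inl rfl)),
        Or.inr (Or.inr (Or.inr (Or.inl rfl))), Or.inr (Or.inr (Or.inr (Or.inr rfl)))]
  · intro T f hiT hf hfT _ hfR _
    -- the two blockers
    have lab : ∀ z, ¬ X z → ¬ S i z → f z ≤ 9 → Odd (f z) := by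
      intro z hz hzs h9
      rcases hf z hzs with h1 | h1
      · rw [← Nat.not_even_iff_odd]
        exact fun h2 => hz (h1.2.mpr h2)
      · omega
    -- the property of a blocker
    have hblock : ∀ (x z r : V), ¬ S i z → (∀ j, j ≠ i → ∀ u, R j x u → S j z ∧ u = r) →
        ∀ w : ℕ, (f z ≤ 9 → w = f z) → (¬ f z ≤ 9 → ∀ n, Even n → n ≤ 9 → n + 1 ≠ w →
          w + 1 ≠ n → n ≠ f r) → ∀ n, Even n → n ≤ 9 → n + 1 ≠ w ∧ w + 1 ≠ n →
          (n + 1 ≠ f z ∧ f z + 1 ≠ n) ∧ (∀ j ∈ T, j ≠ i → ∀ u, R j x u → n ≠ f u) := by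
      intro x z r hzs hr w hw1 hw2 n hn hn9 hnw
      have hf' := hf z hzs
      by_cases h9 : f z ≤ 9
      · rw [hw1 h9] at hnw
        refine ⟨hnw, ?_⟩
        intro j hj hji u hu
        have h1 := (hr j hji u hu).1
        have h2 := hfT j hj hji z h1
        omega
      · have h100 : 100 ≤ f z := by
          rcases hf' with h1 | h1
          · exact absurd h1.1 h9
          · exact h1
        refine ⟨by omega, ?_⟩
        intro j hj hji u hu
        have h1 := (hr j hji u hu).2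
        subst h1
        exact hw2 h9 n hn hn9 hnw.1 hnw.2
    have hzw : ∃ z w : ℕ, Odd z ∧ z ≤ 9 ∧ Odd w ∧ w ≤ 9 ∧ (z ≠ w ∨ w = 1 ∨ w = 9) ∧
        (f z3 ≤ 9 → z = f z3) ∧ (¬ f z3 ≤ 9 → ∀ n, Even n → n ≤ 9 → n + 1 ≠ z →
          z + 1 ≠ n → n ≠ f r3) ∧ (f z4 ≤ 9 → w = f z4) ∧
        (¬ f z4 ≤ 9 → ∀ n, Even n → n ≤ 9 → n + 1 ≠ w → w + 1 ≠ n → n ≠ f r4) := by
      by_cases h3 : f z3 ≤ 9
      · by_cases h4 : f z4 ≤ 9
        · exact ⟨f z3, f z4, lab z3 Xz3 h.nz3 h3, h3, lab z4 Xz4 h.nz4 h4, h4,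
            Or.inl (hfR i hiT z3 z4 h.nz3 h.nz4 hRi), fun _ => rfl, fun h' => absurd h3 h',
            fun _ => rfl, fun h' => absurd h4 h'⟩
        · obtain ⟨w, w1, w2, w3, w4⟩ := exists_blocker (f r4) (f z3)
          exact ⟨f z3, w, lab z3 Xz3 h.nz3 h3, h3, w1, w2, w4, fun _ => rfl,
            fun h' => absurd h3 h', fun h' => absurd h' h4, fun _ => w3⟩
      · obtain ⟨z, z1, z2, z3', z4'⟩ := exists_blocker (f r3) (f z4)
        by_cases h4 : f z4 ≤ 9
        · refine ⟨z, f z4, z1, z2, lab z4 Xz4 h.nz4 h4, h4, by omega, fun h' => absurd h' h3,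
            fun _ => z3', fun _ => rfl, fun h' => absurd h4 h'⟩
        · obtain ⟨w, w1, w2, w3, w4⟩ := exists_blocker (f r4) z
          exact ⟨z, w, z1, z2, w1, w2, w4, fun h' => absurd h' h3, fun _ => z3',
            fun h' => absurd h' h4, fun _ => w3⟩
    obtain ⟨z, w, zo, z9, wo, w9, hzw, hz1, hz2, hw1, hw2⟩ := hzw
    obtain ⟨g2, g5, g3, g4, gy, ⟨g2e, g29⟩, ⟨g5e, g59⟩, ⟨g3e, g39⟩, ⟨g4e, g49⟩, ⟨gyo, gy9⟩,
      g2a, g5b, g3a, g4b, g3z, g4w, ⟨gyd, gye⟩, h25, h23, h24, h53, h54, h34, h2y, h5y⟩ :=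
      b6_core (f a) (f b) z w (f d) (f e) zo z9 wo w9 hzw
    obtain ⟨b3, b3'⟩ := hblock x3 z3 r3 h.nz3 hr3 z hz1 hz2 g3 g3e g39 g3z
    obtain ⟨b4, b4'⟩ := hblock x4 z4 r4 h.nz4 hr4 w hw1 hw2 g4 g4e g49 g4w
    have hpar : ∀ m n : ℕ, Even m → Odd n → m ≠ n := by
      rintro m n hm hn rfl
      exact (Nat.not_even_iff_odd.mpr hn) hm
    have p2 := hpar _ _ g2e gyo
    have p5 := hpar _ _ g5e gyo
    have p3 := hpar _ _ g3e gyo
    have p4 := hpar _ _ g4e gyo
    have hinj : ∀ k l : Fin 5, k ≠ l → (![g2, g5, g3, g4, gy] : Fin 5 → ℕ) k ≠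
        (![g2, g5, g3, g4, gy] : Fin 5 → ℕ) l := by
      intro k l hkl
      fin_cases k <;> fin_cases l <;> first
        | exact absurd rfl hkl
        | exact h25
        | exact h25.symm
        | exact h23
        | exact h23.symm
        | exact h24
        | exact h24.symm
        | exact h53
        | exact h53.symm
        | exact h54
        | exact h54.symm
        | exact h34
        | exact h34.symm
        | exact p2
        | exact p2.symm
        | exact p5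
        | exact p5.symm
        | exact p3
        | exact p3.symm
        | exact p4
        | exact p4.symm
    refine ⟨![g2, g5, g3, g4, gy], ?_, ?_, ?_, ?_, ?_, ?_, ?_, ?_⟩
    · intro k
      fin_cases k
      exacts [g29, g59, g39, g49, gy9]
    · intro k
      fin_cases k
      · exact ⟨fun _ => g2e, fun _ => hX⟩
      · exact ⟨fun _ => g5e, fun _ => X5⟩
      · exact ⟨fun _ => g3e, fun _ => X3⟩
      · exact ⟨fun _ => g4e, fun _ => X4⟩
      · exact ⟨fun hx => absurd hx Xy, fun hx => absurd hx (Nat.not_even_iff_odd.mpr gyo)⟩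
    · intro k u hu hq
      fin_cases k
      · have := q2 u hq hu
        subst this
        exact g2a
      · have := q5 u hq hu
        subst this
        exact g5b
      · have := q3 u hq hu
        subst this
        exact g3a
      · have := q4 u hq hu
        subst this
        exact g4b
      · rcases qy u hq hu with rfl | rfl
        exacts [gyd, gye]
    · intro j hj hji k u _ hr
      fin_cases k
      · exfalso
        rcases hR j hji _ _ m2 hr with h' | h'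
        exacts [n23 h', n24 h']
      · exfalso
        rcases hR j hji _ _ m5 hr with h' | h'
        exacts [n53 h', n54 h']
      · exact b3' j hj hji u hr
      · exact b4' j hj hji u hr
      · exfalso
        rcases hR j hji _ _ my hr with h' | h'
        exacts [n3y h'.symm, n4y h'.symm]
    · intro k w' hw ha hx
      fin_cases k
      · exact absurd ((h.c2 w' ha hx) ▸ my) hw
      · exact absurd ((h.c5 w' ha hx) ▸ my) hw
      · have := h.c3 w' ha hx
        subst this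
        exact b3
      · have := h.c4 w' ha hx
        subst this
        exact b4
      · rcases h.cy w' ha hx with rfl | rfl
        exacts [absurd m2 hw, absurd m5 hw]
    · intro k l hq
      refine hinj k l ?_
      rintro rfl
      exact hQne _ hq
    · intro j _ _ k l hr
      refine hinj k l ?_
      rintro rfl
      exact hRne _ _ hr
    · have f3 : ¬ A x3 y := by
        intro ha
        have := h.c3 y ha (by tauto)
        exact h.nz3 (this ▸ my)
      have f4 : ¬ A x4 y := by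
        intro ha
        have := h.c4 y ha (by tauto)
        exact h.nz4 (this ▸ my)
      have f3' : ¬ A y x3 := fun ha => f3 (hAs _ _ ha)
      have f4' : ¬ A y x4 := fun ha => f4 (hAs _ _ ha)
      have s25 := iff_of_true hX X5
      have s23 := iff_of_true hX X3
      have s24 := iff_of_true hX X4
      have s53 := iff_of_true X5 X3
      have s54 := iff_of_true X5 X4
      have s34 := iff_of_true X3 X4
      intro k l ha hx
      fin_cases k <;> fin_cases l <;> first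
        | exact absurd Iff.rfl hx
        | exact absurd ha f3
        | exact absurd ha f4
        | exact absurd ha f3'
        | exact absurd ha f4'
        | exact h2y.1
        | exact h2y.2
        | exact h5y.1
        | exact h5y.2
        | exact absurd s25 hx
        | exact absurd s25.symm hx
        | exact absurd s23 hx
        | exact absurd s23.symm hx
        | exact absurd s24 hx
        | exact absurd s24.symm hx
        | exact absurd s53 hx
        | exact absurd s53.symm hx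
        | exact absurd s54 hx
        | exact absurd s54.symm hx
        | exact absurd s34 hx
        | exact absurd s34.symm hx

/-- **The type `B6` can be labelled last, in parity**; `R i z3 z4` is its artificial pair. -/
theorem ext_b6 [Fintype V] (hAs : ∀ u v, A u v → A v u) (hQs : ∀ u v, Q u v → Q v u)
    (hQne : ∀ v, ¬ Q v v) (hRs : ∀ i u v, R i u v → R i v u) (hRne : ∀ i v, ¬ R i v v)
    (i : ι) (hdisj : ∀ j, j ≠ i → ∀ v, S i v → ¬ S j v) {x2 x5 x3 x4 y z3 z4 : V}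
    (h : BSix A Q X (S i) x2 x5 x3 x4 y z3 z4) (hRi : R i z3 z4)
    (hR : ∀ j, j ≠ i → ∀ u v, S i u → R j u v → u = x3 ∨ u = x4)
    (hR3 : ∃ r, ∀ j, j ≠ i → ∀ u, R j x3 u → S j z3 ∧ u = r)
    (hR4 : ∃ r, ∀ j, j ≠ i → ∀ u, R j x4 u → S j z4 ∧ u = r) :
    Ext A Q X S R i := by
  by_cases hX : X x2
  · exact ext_b6_pos hAs hQs hQne hRs hRne i hdisj h hRi hR hR3 hR4 hX
  · exact Ext.refl hAs
      (ext_b6_pos hAs hQs hQne hRs hRne i hdisj h.refl hRi hR hR3 hR4 hX)

end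

end Helper17.L21
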